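import Pool.Agent.Q289.AC.Fin
import Pool.Agent.Q79.AC.Rule
import Pool.Agent.Q79.AC.Ins
import Pool.Agent.Q79.AC.Unb
import Pool.Agent.Q79.AC.Mult
import Pool.Agent.Q79.AC.CutIso
import Pool.Agent.Q149.AC.Deg
import Pool.Agent.Q149.AC.Count
import Pool.Agent.Q149.AC.Key
import Pool.Agent.Q182.AC.Transfer
import Pool.Agent.Q275.AC.Degree
import Pool.Agent.Q275.AC.Perc

/-!
# Limits along balls of Cayley graphs with infinitely many ends (MP_ac3f41_pr)

Every limit along balls `H` of a Cayley graph with infinitely many ends has `p_c(H) = 1` almost
surely.

Proof. If the complement of a ball `K` has three infinite components then some finite set `F` has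
the property that for all group elements `a, b` there is `w ∈ F` such that the translate `aK`
separates `1` from `a w b` (a ping-pong argument).  Inserting `w` into the geodesic word of a
vertex `v` at distance `i` from its end creates a separator at distance `i`; the insertion map has
bounded multiplicity on the vertices which have no separator at a distance between `ρ` and `r`, so
the latter have frequency `O(1/r)` in the ball `B_n`.  The same map shows that most vertices of
`B_n` are at bounded distance from the boundary sphere, hence the side of such a separator which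
contains the vertex is a bounded set in `B_n`.  So in the limit the root is separated from
infinity by arbitrarily many disjoint cut sets of bounded size.
-/

open MeasureTheory ProbabilityTheory Filter Topology

namespace Pool.Agent.Results.MP_ac3f41_pr.CriticalOne

open Q289.AC

/-- **Every limit along balls of a Cayley graph with infinitely many ends has critical
probability one almost surely.** -/
theorem result (Γ : Type) [Group Γ] (S : Finset Γ) (hS : Gen S) (hends : InfEnds S)
    (Ω : Type) [MeasurableSpace Ω] (P : Measure Ω) [IsProbabilityMeasure P]
    (X : Ω → SimpleGraph ℕ) (ρ : Ω → ℕ) (hlim : IsLimit S P X ρ) :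
    ∀ᵐ ω ∂P, pc (X ω) (ρ ω) = 1 := by
  have hrule : S_Rule := Pool.Agent.Q79.AC.rule
  have hend : S_End := Pool.Agent.Q79.AC.endr
  have hdeg : S_Deg := Pool.Agent.Q149.AC.deg hrule
  have htwo : S_Two := Pool.Agent.Q79.AC.two hrule hdeg
  have hins : S_Ins := Pool.Agent.Q79.AC.ins hrule htwo
  have hunb : S_Unb := Pool.Agent.Q79.AC.unb hrule htwo
  have hmult : S_Mult := Pool.Agent.Q79.AC.mult
  have hgrow : S_Grow := Pool.Agent.Q79.AC.grow hins hunb hmult
  have hcount : S_Count := Pool.Agent.Q149.AC.count hins hmult
  have hkey : S_Key := Pool.Agent.Q149.AC.key hend hgrow hcount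
  have hcut : S_CutIso := Pool.Agent.Q79.AC.cutIso
  have htr : S_Transfer := Q182.AC.transfer
  have hdegree : S_Degree := Pool.Agent.Q275.AC.degree htr
  have hperc : S_Perc := Pool.Agent.Q275.AC.perc
  exact main hkey hcut htr hdegree hperc Γ S hS hends Ω P X ρ hlim

end Pool.Agent.Results.MP_ac3f41_pr.CriticalOne
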